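import Pool.Agent.Helper26.PQ.Defs

/-!
# Bases and systems: definitions for the extension lemma
-/

set_option autoImplicit false

namespace Pool.Agent.Helper26.PQ

open Set

universe u

variable {Ω : Type} {I : Type u} [LinearOrder I] [WellFoundedLT I]

/-- The data which are to be extended: a space `K` with an open subset `Xb` whose complement is
discrete, countably many letters, closed embeddings `h i` which respect `Xb`, and a cocycle on the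
complement of `Xb`. -/
structure Base (F : Frame Ω I) where
  /-- the space -/
  K : Set (Set Ω)
  /-- the old part -/
  Xb : Set Ω
  /-- the letters -/
  a : Set I
  /-- the maps -/
  h : I → Ω → Ω
  /-- the cocycle -/
  γ : Ω → FreeGroup I
  sp : IsSp F.α K
  sub : Xb ⊆ car K
  opn : ∀ x ∈ Xb, ∃ A ∈ K, x ∈ A ∧ A ⊆ Xb
  disc : ∀ x ∈ car K, x ∉ Xb → ∃ A ∈ K, x ∈ A ∧ ∀ y ∈ A, y ≠ x → y ∈ Xb
  count : a.Countable
  aV : a ⊆ F.V
  emb : ∀ i ∈ a, Emb K (h i)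
  maps : ∀ i ∈ a, MapsTo (h i) Xb Xb
  maps' : ∀ i ∈ a, MapsTo (h i) (car K \ Xb) (car K \ Xb)
  coc : ∀ i ∈ a, ∀ x ∈ car K \ Xb, γ (h i x) = FreeGroup.of i * γ x

/-- The condition `r` with letters in `c` extends the base, with the cocycle `γ` on `r.X \ b.Xb` for
the letters in `b.a ∩ c`. -/
structure Sys {F : Frame Ω I} (b : Base F) (c : Set I) (r : PC Ω I) (γ : Ω → FreeGroup I) :
    Prop where
  mem : r ∈ F.C c
  part : Part b.K r.K
  sub : b.a ∩ c ⊆ r.a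
  eq : ∀ i ∈ b.a ∩ c, EqOn (r.h i) (b.h i) (car b.K)
  maps : ∀ i ∈ b.a ∩ c, MapsTo (r.h i) (r.X \ b.Xb) (r.X \ b.Xb)
  ext : EqOn γ b.γ (car b.K \ b.Xb)
  lc : LC r.K (r.X \ b.Xb) γ
  coc : ∀ i ∈ b.a ∩ c, ∀ x ∈ r.X \ b.Xb, γ (r.h i x) = FreeGroup.of i * γ x

/-- The base is compatible with the names. -/
def Compat {F : Frame Ω I} (b : Base F) : Prop :=
  ∀ i ∈ b.a, ∀ r γ, Sys b (Iio i) r γ → ∀ E, F.Dec i r E →
    b.h i '' car b.K ⊆ E ∧ E ∩ b.Xb = b.h i '' b.Xb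

/-- The extension lemma up to `c'`. -/
def GEL (F : Frame Ω I) (c' : Set I) : Prop :=
  ∀ b : Base F, Compat b → ∀ c : Set I, IsLowerSet c → c ⊆ c' → ∀ r γ, Sys b c r γ →
    ∃ r' γ', Sys b c' r' γ' ∧ Le r' r ∧ EqOn γ' γ (r.X \ b.Xb)

/-- Every name meets every new part in points of large rank. -/
def Supply (F : Frame Ω I) (c : Set I) (D : PC Ω I → Set Ω → Prop) : Prop :=
  ∀ r ∈ F.C c, ∀ β < F.α, ∃ r' ∈ F.C c, Le r' r ∧ ∃ E, D r' E ∧
    ∃ x ∈ E, x ∉ r.X ∧ β ≤ rk (PQ.sub r'.K E) x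

/-- The points `g (d n)` are eventually defined, and their ranks plus one have limes superior
`ρ`. -/
def EvDef (ps : ℕ → PC Ω I) (d : ℕ → Ω) (g : FreeGroup I) (ρ : Ordinal.{0}) : Prop :=
  (∃ N, ∀ n ≥ N, ∃ y, GAct (ps (n + 1)).HH g (d n) y ∧ rk (ps (n + 1)).K y < ρ) ∧
    ∀ β < ρ, ∀ N, ∃ n ≥ N, ∃ y, GAct (ps (n + 1)).HH g (d n) y ∧ β ≤ rk (ps (n + 1)).K y

/-- The set with the name `U` is forced by `p` to be unbounded. -/
def Unb (F : Frame Ω I) (c : Set I) (U : PC Ω I → Ω → Prop) (p : PC Ω I) : Prop :=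
  ∀ q ∈ F.C c, Le q p → ∃ r ∈ F.C c, Le r q ∧ ∃ x ∈ r.X, x ∉ q.X ∧ U r x

/-- The points of `E` (with the name `D`) of rank at least `β` in `E`, such that `g x` is defined
and has rank `f g` for all `g ∈ W`, and is undefined for `g ∈ W'`. -/
def DD (D : PC Ω I → Set Ω → Prop) (β : Ordinal.{0}) (W W' : Set (FreeGroup I))
    (f : FreeGroup I → Ordinal.{0}) (r : PC Ω I) (x : Ω) : Prop :=
  ∃ E, D r E ∧ x ∈ E ∧ β ≤ rk (PQ.sub r.K E) x ∧
    (∀ g ∈ W, ∃ y, GAct r.HH g x y ∧ rk r.K y = f g) ∧ ∀ g ∈ W', ¬ ∃ y, GAct r.HH g x y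

end Pool.Agent.Helper26.PQ
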