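import Mathlib

/-!
# Boolean algebras isomorphic to their uncountable quotients, countable height: definitions

`Ω` is the set of points, `I` the (well-ordered) set of letters. A locally compact zero-dimensional
space on a subset of `Ω` is given by the ring `K` of its compact open sets.
-/

set_option autoImplicit false

namespace Pool.Agent.Helper26.PQ

open Set

universe u v

section Spaces

variable {Ω : Type u} {Ω' : Type v}

/-- The set of points of the space. -/
def car (K : Set (Set Ω)) : Set Ω := ⋃₀ K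

/-- `K` is the ring of all compact open sets of a locally compact zero-dimensional Hausdorff space
with the set of points `car K`. -/
structure IsRing (K : Set (Set Ω)) : Prop where
  empty : ∅ ∈ K
  union : ∀ A ∈ K, ∀ B ∈ K, A ∪ B ∈ K
  diff : ∀ A ∈ K, ∀ B ∈ K, A \ B ∈ K
  sep : ∀ x ∈ car K, ∀ y ∈ car K, x ≠ y → ∃ A ∈ K, x ∈ A ∧ y ∉ A
  cpt : ∀ A ∈ K, ∀ U ⊆ K, A ⊆ ⋃₀ U → ∃ V ⊆ U, V.Finite ∧ A ⊆ ⋃₀ V

/-- `ρ` is the Cantor-Bendixson rank function of the space. -/
def IsRank (K : Set (Set Ω)) (ρ : Ω → Ordinal.{0}) : Prop :=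
  ∀ x ∈ car K, (∃ A ∈ K, x ∈ A ∧ ∀ y ∈ A, y ≠ x → ρ y < ρ x) ∧
    ∀ β < ρ x, ∀ A ∈ K, x ∈ A → ∃ y ∈ A, y ≠ x ∧ β ≤ ρ y

open Classical in
/-- The Cantor-Bendixson rank of a point. -/
noncomputable def rk (K : Set (Set Ω)) : Ω → Ordinal.{0} :=
  if h : ∃ ρ, IsRank K ρ then h.choose else fun _ => 0

/-- A countable scattered space all of whose points have rank below `α`. -/
structure IsSp (α : Ordinal.{0}) (K : Set (Set Ω)) : Prop where
  ring : IsRing K
  count : (car K).Countable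
  rank : ∃ ρ, IsRank K ρ
  lt : ∀ x ∈ car K, rk K x < α

/-- `K'` is a clopen subspace of `K`. -/
def Part (K' K : Set (Set Ω)) : Prop := K' ⊆ K ∧ ∀ A ∈ K, A ∩ car K' ∈ K'

/-- `E` is a closed subset of the space `K`. -/
def Cl (K : Set (Set Ω)) (E : Set Ω) : Prop :=
  E ⊆ car K ∧ ∀ x ∈ car K, x ∉ E → ∃ A ∈ K, x ∈ A ∧ A ∩ E = ∅

/-- The subspace `E` of `K`. -/
def sub (K : Set (Set Ω)) (E : Set Ω) : Set (Set Ω) := {B | ∃ A ∈ K, B = A ∩ E}

/-- The members of `K` contained in `D`. -/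
def pc (K : Set (Set Ω)) (D : Set Ω) : Set (Set Ω) := {A | A ∈ K ∧ A ⊆ D}

/-- `D` is a clopen subset of the space `K`. -/
def Clp (K : Set (Set Ω)) (D : Set Ω) : Prop := D ⊆ car K ∧ ∀ A ∈ K, A ∩ D ∈ K

/-- `f` is a homeomorphism of `K` onto `L`. -/
def Iso (K : Set (Set Ω)) (L : Set (Set Ω')) (f : Ω → Ω') : Prop :=
  BijOn f (car K) (car L) ∧ ∀ A ⊆ car K, (A ∈ K ↔ f '' A ∈ L)

/-- `f` is a closed embedding of `K` into itself. -/
def Emb (K : Set (Set Ω)) (f : Ω → Ω) : Prop :=
  Cl K (f '' car K) ∧ Iso K (sub K (f '' car K)) f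

end Spaces

section Words

variable {Ω : Type u} {I : Type v}

/-- The relation `y = w(x)` for a word `w` in the partial maps `H i` and their inverses. -/
def Act (H : I → Ω → Ω → Prop) : List (I × Bool) → Ω → Ω → Prop
  | [], x, y => x = y
  | (i, true) :: w, x, y => ∃ z, Act H w x z ∧ H i z y
  | (i, false) :: w, x, y => ∃ z, Act H w x z ∧ H i y z

open Classical in
/-- The relation `y = g(x)` for an element `g` of the free group. -/
def GAct (H : I → Ω → Ω → Prop) (g : FreeGroup I) (x y : Ω) : Prop := Act H g.toWord x y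

/-- The relations are partial injective maps. -/
def PInj (H : I → Ω → Ω → Prop) : Prop :=
  (∀ i x y y', H i x y → H i x y' → y = y') ∧ ∀ i x x' y, H i x y → H i x' y → x = x'

/-- `c` is locally constant on the subset `Z` of the space `K`. -/
def LC {G : Type*} (K : Set (Set Ω)) (Z : Set Ω) (c : Ω → G) : Prop :=
  ∀ x ∈ Z, ∃ A ∈ K, x ∈ A ∧ ∀ y ∈ A ∩ Z, c y = c x

open Classical in
/-- The set is closed under removing the letter which is applied last. -/
def SufClosed (S : Set (FreeGroup I)) : Prop :=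
  ∀ g ∈ S, ∀ s w, g.toWord = s :: w → FreeGroup.mk w ∈ S

open Classical in
/-- All letters of `g` are in `a`. -/
def Lt (a : Set I) (g : FreeGroup I) : Prop := ∀ s ∈ g.toWord, s.1 ∈ a

end Words

section Conditions

variable {Ω : Type} {I : Type u}

/-- Preconditions. -/
structure PC (Ω : Type) (I : Type u) where
  /-- the space -/
  K : Set (Set Ω)
  /-- the letters -/
  a : Set I
  /-- the maps -/
  h : I → Ω → Ω

namespace PC

/-- The set of points. -/
def X (p : PC Ω I) : Set Ω := car p.K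

/-- The partial maps with letters in `a`, restricted to `Z`. -/
def H (p : PC Ω I) (a : Set I) (Z : Set Ω) : I → Ω → Ω → Prop :=
  fun i x y => i ∈ a ∧ x ∈ Z ∧ p.h i x = y

/-- The full system of a condition. -/
def HH (p : PC Ω I) : I → Ω → Ω → Prop := p.H p.a p.X

/-- The restriction to the letters in `c`. -/
def res (p : PC Ω I) (c : Set I) : PC Ω I := ⟨p.K, p.a ∩ c, p.h⟩

/-- Basic requirements. -/
structure Basic (α : Ordinal.{0}) (p : PC Ω I) : Prop where
  sp : IsSp α p.K
  count : p.a.Countable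
  emb : ∀ i ∈ p.a, Emb p.K (p.h i)

end PC

/-- `q` extends `p`: the new part is clopen and invariant, and has a locally constant cocycle with
values in the free group. -/
structure Le (q p : PC Ω I) : Prop where
  part : Part p.K q.K
  sub : p.a ⊆ q.a
  eq : ∀ i ∈ p.a, EqOn (q.h i) (p.h i) p.X
  maps : ∀ i ∈ p.a, MapsTo (q.h i) (q.X \ p.X) (q.X \ p.X)
  coc : ∃ γ : Ω → FreeGroup I, LC q.K (q.X \ p.X) γ ∧
    ∀ i ∈ p.a, ∀ x ∈ q.X \ p.X, γ (q.h i x) = FreeGroup.of i * γ x

variable [LinearOrder I]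

/-- The conditions with letters in `c`, where `V` is the set of the admissible letters and
`Dec i p E` means that `p` decides that the part of the closed set with the name `i` in `p.X`
is `E`. -/
def Cnd (α : Ordinal.{0}) (V : Set I) (Dec : I → PC Ω I → Set Ω → Prop) (c : Set I) :
    Set (PC Ω I) :=
  {p | p.Basic α ∧ p.a ⊆ c ∩ V ∧ ∀ i ∈ p.a, Dec i (p.res (Iio i)) (p.h i '' p.X)}

/-- The union of a decreasing sequence of conditions. -/
noncomputable def lim (p : ℕ → PC Ω I) : PC Ω I where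
  K := ⋃ n, (p n).K
  a := ⋃ n, (p n).a
  h := fun i x =>
    open Classical in
    if h : ∃ n, i ∈ (p n).a ∧ x ∈ (p n).X then (p (Nat.find h)).h i x else x

/-- `D` is a name for a closed unbounded set over the set `C` of conditions. -/
structure IsName (C : Set (PC Ω I)) (D : PC Ω I → Set Ω → Prop) : Prop where
  mono : ∀ p ∈ C, ∀ q ∈ C, Le q p → ∀ E E', D p E → D q E' → E' ∩ p.X = E
  dens : ∀ p ∈ C, ∃ q ∈ C, Le q p ∧ ∃ E, D q E
  closed : ∀ p ∈ C, ∀ E, D p E → Cl p.K E
  cont : ∀ (p : ℕ → PC Ω I) (E : ℕ → Set Ω), (∀ n, p n ∈ C) → (∀ n, Le (p (n + 1)) (p n)) →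
    (∀ n, D (p n) (E n)) → D (lim p) (⋃ n, E n)
  ext : ∀ p ∈ C, ∀ q ∈ C, Le q p → q.X = p.X → ∀ E, D p E → D q E
  unb : ∀ p ∈ C, ∃ q ∈ C, Le q p ∧ ∃ E, D q E ∧ ¬ E ⊆ p.X

/-- A frame: a well-ordered set of letters which are names. -/
structure Frame (Ω : Type) (I : Type u) [LinearOrder I] where
  /-- the height -/
  α : Ordinal.{0}
  V : Set I
  Dec : I → PC Ω I → Set Ω → Prop
  name : ∀ i ∈ V, IsName (Cnd α V Dec (Iio i)) (Dec i)

/-- The conditions of the frame. -/
def Frame.C (F : Frame Ω I) (c : Set I) : Set (PC Ω I) := Cnd F.α F.V F.Dec c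

end Conditions

end Pool.Agent.Helper26.PQ
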