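import Pool.Agent.Helper26.PQ.Stub.D2
import Pool.Agent.Helper26.PQ.Stub.F1

/-! # F3: the extension lemma for all stages and its applications -/

set_option autoImplicit false

namespace Pool.Agent.Helper26.PQ

open Set

universe u

variable {Ω : Type} {I : Type u} [LinearOrder I] [WellFoundedLT I]

section Gel

variable [Uncountable Ω] (F : Frame Ω I) (hα : F.α < Ordinal.omega 1)
  (hα' : Ordinal.IsPrincipal (· + ·) F.α)

include hα hα'

theorem gel_Iio (j : I) : GEL F (Iio j) := by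
  induction j using WellFoundedLT.induction with
  | ind j ih =>
    exact gel_step F hα (isLowerSet_Iio j) (fun i hi => ih i hi)
      fun i hi hV => supply F hα hα' (isLowerSet_Iio i) (ih i hi) (F.name i hV)

theorem gel_all {c : Set I} (hc : IsLowerSet c) : GEL F c :=
  gel_step F hα hc (fun j _ => gel_Iio F hα hα' j)
    fun j _ hV => supply F hα hα' (isLowerSet_Iio j) (gel_Iio F hα hα' j) (F.name j hV)

end Gel

/-- The base given by a condition. -/
def baseOf (F : Frame Ω I) {p : PC Ω I} {c : Set I} (hp : p ∈ F.C c) : Base F where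
  K := p.K
  Xb := p.X
  a := p.a
  h := p.h
  γ := fun _ => 1
  sp := (F.basic_of_mem hp).sp
  sub := Subset.rfl
  opn := by
    rintro x ⟨A, hA, hx⟩
    exact ⟨A, hA, hx, subset_car hA⟩
  disc := fun x hx hx' => absurd hx hx'
  count := (F.basic_of_mem hp).count
  aV := fun i hi => (hp.2.1 hi).2
  emb := (F.basic_of_mem hp).emb
  maps := fun i hi x hx => ((F.basic_of_mem hp).emb i hi).1.1 ⟨x, hx, rfl⟩
  maps' := fun i hi x hx => absurd hx.1 hx.2
  coc := fun i hi x hx => absurd hx.1 hx.2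

section Amalgam

variable {F : Frame Ω I} {p q : PC Ω I} {c c' : Set I}

theorem baseOf_le (hp : p ∈ F.C c') {r : PC Ω I} {γ : Ω → FreeGroup I}
    (h : Sys (baseOf F hp) c r γ) : Le r (p.res c) :=
  ⟨h.part, h.sub, h.eq, h.maps, γ, h.lc, h.coc⟩

theorem sys_of_le (hp : p ∈ F.C c') (hq : q ∈ F.C c) (h : Le q (p.res c)) :
    ∃ γ, Sys (baseOf F hp) c q γ := by
  obtain ⟨γ, h1, h2⟩ := h.coc
  refine ⟨γ, hq, h.part, h.sub, h.eq, h.maps, ?_, h1, h2⟩
  intro x hx
  exact absurd hx.1 hx.2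

theorem res_mem_Iio (hp : p ∈ F.C c) (i : I) : p.res (Iio i) ∈ F.C (Iio i) :=
  F.C_mono inter_subset_right (F.res_mem hp (isLowerSet_Iio i))

theorem baseOf_compat (hp : p ∈ F.C c') : Compat (baseOf F hp) := by
  intro i hi r γ hr E hE
  have h1 := F.dec_of_mem hp (i := i) hi
  have h2 := baseOf_le hp hr
  have h3 := F.dec_inter (hp.2.1 hi).2 (res_mem_Iio hp i) hr.mem h2 h1 hE
  change p.h i '' p.X ⊆ E ∧ E ∩ p.X = p.h i '' p.X
  exact ⟨h3 ▸ inter_subset_left, h3⟩

omit [LinearOrder I] [WellFoundedLT I] in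
theorem le_of_le_res (hc : p.a ⊆ c) (h : Le q (p.res c)) : Le q p := by
  obtain ⟨h1, h2, h3, h4, γ, h5, h6⟩ := h
  have h7 : p.a ⊆ (p.res c).a := fun i hi => ⟨hi, hc hi⟩
  exact ⟨h1, fun i hi => h2 (h7 hi), fun i hi => h3 i (h7 hi), fun i hi => h4 i (h7 hi), γ, h5,
    fun i hi => h6 i (h7 hi)⟩

variable [Uncountable Ω] (hα : F.α < Ordinal.omega 1)
  (hα' : Ordinal.IsPrincipal (· + ·) F.α)

include hα hα'

/-- Amalgamation. -/
theorem amalgam (hc : IsLowerSet c) (hc' : IsLowerSet c') (hcc : c ⊆ c') (hp : p ∈ F.C c')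
    (hq : q ∈ F.C c) (h : Le q (p.res c)) : ∃ r ∈ F.C c', Le r p ∧ Le r q := by
  obtain ⟨γ, hγ⟩ := sys_of_le hp hq h
  obtain ⟨r, γ', h1, h2, h3⟩ := gel_all F hα hα' hc' (baseOf F hp) (baseOf_compat hp) c hc hcc q γ hγ
  exact ⟨r, h1.mem, le_of_le_res (fun i hi => (hp.2.1 hi).1) (baseOf_le hp h1), h2⟩

/-- Adding a point. -/
theorem add_point (h0 : 0 < F.α) (hc : IsLowerSet c) (hp : p ∈ F.C c) (x : Ω) :
    ∃ r ∈ F.C c, Le r p ∧ x ∈ r.X := by
  by_cases hx : x ∈ p.X
  · exact ⟨p, hp, Le.refl p, hx⟩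
  obtain ⟨K', h1, h2, h3⟩ := (F.basic_of_mem hp).sp.insert_point h0 hx
  have hq : (⟨K', ∅, fun _ => id⟩ : PC Ω I) ∈ F.C ∅ := by
    refine ⟨⟨h1, countable_empty, ?_⟩, empty_subset _, ?_⟩
    · intro i hi
      exact absurd hi (notMem_empty i)
    · intro i hi
      exact absurd hi (notMem_empty i)
  have hle : Le (⟨K', ∅, fun _ => id⟩ : PC Ω I) (p.res ∅) := by
    refine ⟨h2, ?_, ?_, ?_, fun _ => 1, ?_, ?_⟩
    · intro i hi
      exact hi.2
    · intro i hi
      exact absurd hi.2 (notMem_empty i)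
    · intro i hi
      exact absurd hi.2 (notMem_empty i)
    · intro y hy
      obtain ⟨A, hA, hyA⟩ := hy.1
      exact ⟨A, hA, hyA, fun _ _ => rfl⟩
    · intro i hi
      exact absurd hi.2 (notMem_empty i)
  obtain ⟨r, h4, h5, h6⟩ := amalgam hα hα' (isLowerSet_empty) hc (empty_subset c) hp hq hle
  refine ⟨r, h4, h5, h6.X_subset ?_⟩
  change x ∈ car K'
  rw [h3]
  exact mem_insert x _

/-- The base with one letter and the empty space. -/
def baseLetter (F : Frame Ω I) {i : I} (hi : i ∈ F.V) : Base F where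
  K := {∅}
  Xb := ∅
  a := {i}
  h := fun _ => id
  γ := fun _ => 1
  sp := isSp_empty
  sub := empty_subset _
  opn := fun x hx => absurd hx (notMem_empty x)
  disc := by
    intro x hx
    rw [car_singleton_empty] at hx
    exact absurd hx (notMem_empty x)
  count := countable_singleton i
  aV := by
    rintro _ rfl
    exact hi
  emb := by
    intro j _
    refine ⟨?_, ?_⟩
    · rw [image_id]
      exact cl_car
    · rw [image_id]
      have : sub ({∅} : Set (Set Ω)) (car {∅}) = {∅} := by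
        ext B
        simp [PQ.sub, car_singleton_empty]
      rw [this]
      exact Iso.refl
  maps := fun j _ x hx => absurd hx (notMem_empty x)
  maps' := by
    intro j _ x hx
    rw [car_singleton_empty] at hx
    exact absurd hx.1 (notMem_empty x)
  coc := by
    intro j _ x hx
    rw [car_singleton_empty] at hx
    exact absurd hx.1 (notMem_empty x)

/-- Adding a letter. -/
theorem add_name (hc : IsLowerSet c) (hp : p ∈ F.C c) {i : I} (hi : i ∈ F.V) (hic : i ∈ c) :
    ∃ r ∈ F.C c, Le r p ∧ i ∈ r.a := by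
  by_cases hia : i ∈ p.a
  · exact ⟨p, hp, Le.refl p, hia⟩
  have hX : car ({∅} : Set (Set Ω)) = ∅ := car_singleton_empty
  have hcomp : Compat (baseLetter F hi) := by
    intro j hj r γ hr E hE
    change id '' car ({∅} : Set (Set Ω)) ⊆ E ∧ E ∩ ∅ = id '' ∅
    rw [hX]
    simp
  have hsys : Sys (baseLetter F hi) (Iio i) (p.res (Iio i)) (fun _ => 1) := by
    refine ⟨res_mem_Iio hp i, ⟨?_, ?_⟩, ?_, ?_, ?_, ?_, ?_, ?_⟩
    · rintro _ rfl
      exact (F.basic_of_mem hp).sp.ring.empty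
    · intro A _
      change A ∩ car ({∅} : Set (Set Ω)) ∈ ({∅} : Set (Set Ω))
      rw [hX, inter_empty]
      rfl
    · rintro j ⟨hj, hj'⟩
      rw [show j = i from hj] at hj'
      exact absurd hj' (lt_irrefl i)
    · rintro j ⟨hj, hj'⟩
      rw [show j = i from hj] at hj'
      exact absurd hj' (lt_irrefl i)
    · rintro j ⟨hj, hj'⟩
      rw [show j = i from hj] at hj'
      exact absurd hj' (lt_irrefl i)
    · intro x hx
      exact absurd hx.1 (by change x ∉ car ({∅} : Set (Set Ω)); rw [hX]; exact notMem_empty x)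
    · intro y hy
      obtain ⟨A, hA, hyA⟩ := hy.1
      exact ⟨A, hA, hyA, fun _ _ => rfl⟩
    · rintro j ⟨hj, hj'⟩
      rw [show j = i from hj] at hj'
      exact absurd hj' (lt_irrefl i)
  obtain ⟨q, γ, h1, h2, -⟩ := gel_all F hα hα' (isLowerSet_Iic i) (baseLetter F hi) hcomp (Iio i)
    (isLowerSet_Iio i) Iio_subset_Iic_self _ _ hsys
  have hiq : i ∈ q.a := h1.sub ⟨rfl, le_refl i⟩
  have hle : Le q (p.res (Iic i)) := by
    have h3 : p.a ∩ Iic i = p.a ∩ Iio i := by
      ext j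
      constructor
      · rintro ⟨h4, h5⟩
        refine ⟨h4, lt_of_le_of_ne h5 ?_⟩
        rintro rfl
        exact hia h4
      · rintro ⟨h4, h5⟩
        exact ⟨h4, le_of_lt h5⟩
    have h4 : p.res (Iic i) = p.res (Iio i) := by
      unfold PC.res
      rw [h3]
    rw [h4]
    exact h2
  obtain ⟨r, h4, h5, h6⟩ := amalgam hα hα' (isLowerSet_Iic i) hc (hc.Iic_subset hic) hp h1.mem hle
  exact ⟨r, h4, h5, h6.sub hiq⟩

theorem exists_rank_point (h0 : 0 < F.α) (hc : IsLowerSet c) (hp : p ∈ F.C c) {β : Ordinal.{0}}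
    (hβ : β < F.α) : ∃ r ∈ F.C c, Le r p ∧ ∃ x ∈ r.X, x ∉ p.X ∧ rk r.K x = β := by
  have hN : IsName (F.C c) (fun p E => E = p.X) := by
    refine ⟨?_, ?_, ?_, ?_, ?_, ?_⟩
    · rintro p hp q hq hle _ _ rfl rfl
      exact inter_eq_right.2 hle.X_subset
    · intro p hp
      exact ⟨p, hp, Le.refl p, _, rfl⟩
    · rintro p hp _ rfl
      exact cl_car
    · intro ps E _ _ hE
      rw [lim_X]
      exact iUnion_congr hE
    · rintro p hp q hq hle hX _ rfl
      exact hX.symm
    · intro p hp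
      obtain ⟨x, hx⟩ : ∃ x, x ∉ p.X := by
        by_contra hcon
        push Not at hcon
        have : (univ : Set Ω).Countable :=
          (F.basic_of_mem hp).sp.count.mono fun x _ => hcon x
        exact not_countable_univ this
      obtain ⟨r, h1, h2, h3⟩ := add_point hα hα' h0 hc hp x
      exact ⟨r, h1, h2, r.X, rfl, fun h => hx (h h3)⟩
  obtain ⟨r, hr, hle, E, rfl, x, hx, hxp, hrk⟩ :=
    supply F hα hα' hc (gel_all F hα hα' hc) hN p hp β hβ
  have hs : sub r.K r.X = r.K := by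
    ext B
    constructor
    · rintro ⟨A, hA, rfl⟩
      rwa [show A ∩ r.X = A from inter_eq_left.2 (subset_car hA)]
    · intro hB
      exact ⟨B, hB, (inter_eq_left.2 (subset_car hB)).symm⟩
  rw [hs] at hrk
  have hsp := (F.basic_of_mem hr).sp
  obtain ⟨A, hA, hxA⟩ := hx
  have hd : A ∩ (car r.K \ car p.K) ∈ r.K :=
    (Clp.diff hsp.ring clp_car hle.part.clp).2 A hA
  obtain ⟨y, hy, hyr⟩ := exists_rk_eq hsp.rank hsp.ring hd ⟨hxA, ⟨A, hA, hxA⟩, hxp⟩ hrk
  exact ⟨r, hr, hle, y, hy.2.1, hy.2.2, hyr⟩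

end Amalgam

end Pool.Agent.Helper26.PQ
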